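import Pool.Agent.Lib.TrailT.Main

/-! `K_{5,q}` is P2-win in Trail Trap for every odd `q ≥ 13`. -/

namespace Pool.Agent.Results.MP_89b2b1_co.FiveRow

theorem result (q : ℕ) (hq : 13 ≤ q) (ho : Odd q) :
    TrailT.P2Win (completeBipartiteGraph (Fin 5) (Fin q)) :=
  TrailT.main q hq (Nat.odd_iff.1 ho)

end Pool.Agent.Results.MP_89b2b1_co.FiveRow
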